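import Mathlib

namespace Pool.Agent.MP_57f271_lc.H18

open Cardinal

/-- algebraic closure of a set in the algebraic matroid of the complex numbers -/
noncomputable def cl (S : Set ℂ) : Set ℂ := (AlgebraicIndependent.matroid ℚ ℂ).closure S

theorem mem_cl {S : Set ℂ} {a : ℂ} : a ∈ cl S ↔ IsAlgebraic (Algebra.adjoin ℚ S) a := by
  rw [cl, AlgebraicIndependent.matroid_closure_eq]
  exact Subalgebra.mem_algebraicClosure _ _

theorem exists_hom (S : Set ℂ) {α β : ℂ} (hα : α ∉ cl S) (hβ : β ∉ cl S) :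
    ∃ σ : ℂ →+* ℂ, (∀ s ∈ S, σ s = s) ∧ σ α = β := by
  classical
  rw [mem_cl] at hα hβ
  set R := Algebra.adjoin ℚ S
  have h1 : AlgebraicIndepOn R id ({α} : Set ℂ) :=
    (algebraicIndependent_singleton_iff (⟨α, rfl⟩ : ({α} : Set ℂ))).2 hα
  have h2 : AlgebraicIndepOn R id ({β} : Set ℂ) :=
    (algebraicIndependent_singleton_iff (⟨β, rfl⟩ : ({β} : Set ℂ))).2 hβ
  obtain ⟨B1, hB1, hv⟩ := exists_isTranscendenceBasis_superset h1
  obtain ⟨B2, hB2, hw⟩ := exists_isTranscendenceBasis_superset h2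
  obtain ⟨e0⟩ := Cardinal.eq.1 (hv.cardinalMk_eq hw)
  let a : B1 := ⟨α, hB1 rfl⟩
  let b : B2 := ⟨β, hB2 rfl⟩
  let e : B1 ≃ B2 := e0.trans (Equiv.swap (e0 a) b)
  have he : e a = b := by simp [e]
  let _ := IsAlgClosed.isAlgClosure_of_transcendence_basis _ hv
  let _ := IsAlgClosed.isAlgClosure_of_transcendence_basis _ hw
  let φ : Algebra.adjoin R (Set.range ((↑) : B1 → ℂ)) ≃ₐ[R]
      Algebra.adjoin R (Set.range ((↑) : B2 → ℂ)) :=
    (hv.1.aevalEquiv.symm.trans (MvPolynomial.renameEquiv R e)).trans hw.1.aevalEquiv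
  refine ⟨(IsAlgClosure.equivOfEquiv ℂ ℂ φ.toRingEquiv : ℂ ≃+* ℂ), fun s hs => ?_, ?_⟩
  · have := IsAlgClosure.equivOfEquiv_algebraMap ℂ ℂ φ.toRingEquiv
      (algebraMap R _ ⟨s, Algebra.subset_adjoin hs⟩)
    have h3 : φ.toRingEquiv (algebraMap R _ ⟨s, Algebra.subset_adjoin hs⟩) =
        algebraMap R _ ⟨s, Algebra.subset_adjoin hs⟩ := φ.commutes _
    rw [h3] at this
    exact this
  · have := IsAlgClosure.equivOfEquiv_algebraMap ℂ ℂ φ.toRingEquiv
      (hv.1.aevalEquiv (MvPolynomial.X a))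
    have h3 : φ.toRingEquiv (hv.1.aevalEquiv (MvPolynomial.X a)) =
        hw.1.aevalEquiv (MvPolynomial.X b) := by
      change φ _ = _
      simp [φ, he]
    rw [h3, AlgebraicIndependent.algebraMap_aevalEquiv,
      AlgebraicIndependent.algebraMap_aevalEquiv] at this
    simpa using this

theorem exists_indep (n : ℕ) : ∃ v : Fin n → ℂ, AlgebraicIndependent ℚ v := by
  obtain ⟨B, hB⟩ := exists_isTranscendenceBasis ℚ ℂ
  have h := IsAlgClosed.cardinal_eq_cardinal_transcendence_basis_of_aleph0_lt' _ hB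
    (by simp) (by rw [Cardinal.mk_complex]; exact Cardinal.aleph0_lt_continuum)
  have hinf : Infinite B := by
    rw [Cardinal.infinite_iff, ← h, Cardinal.mk_complex]
    exact Cardinal.aleph0_le_continuum
  let e : Fin n ↪ B := (Fin.valEmbedding).trans (Infinite.natEmbedding B)
  exact ⟨_, hB.1.comp e e.injective⟩

theorem card_le_of_subset_cl {ι : Type} [Fintype ι] {v : ι → ℂ} (hv : AlgebraicIndependent ℚ v)
    (T : Finset ℂ) (h : ∀ i, v i ∈ cl T) : Fintype.card ι ≤ T.card := by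
  have hI : (AlgebraicIndependent.matroid ℚ ℂ).Indep (Set.range v) :=
    AlgebraicIndependent.matroid_indep_iff.2 hv.coe_range
  have h1 := hI.encard_le_eRk_of_subset (X := cl T) (by rintro _ ⟨i, rfl⟩; exact h i)
  rw [cl, Matroid.eRk_closure_eq] at h1
  have h2 := h1.trans (Matroid.eRk_le_encard _ _)
  rw [← Set.image_univ, hv.injective.injOn.encard_image, Set.encard_univ,
    Set.encard_coe_eq_coe_finsetCard] at h2
  simpa using h2

theorem cl_mono {S T : Set ℂ} (h : S ⊆ T) : cl S ⊆ cl T := Matroid.closure_subset_closure _ h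

theorem root_mem_cl {p : Polynomial ℂ} (hp : p.Monic) {T : Set ℂ} (hT : ∀ j ≤ p.natDegree, p.coeff j ∈ T)
    {r : ℂ} (hr : p.eval r = 0) : r ∈ cl T := by
  rw [mem_cl]
  have hl : p ∈ Polynomial.lifts (algebraMap (Algebra.adjoin ℚ T) ℂ) := by
    rw [Polynomial.lifts_iff_coeff_lifts]
    intro j
    by_cases hj : j ≤ p.natDegree
    · exact ⟨⟨_, Algebra.subset_adjoin (hT j hj)⟩, rfl⟩
    · exact ⟨0, by rw [Polynomial.coeff_eq_zero_of_natDegree_lt (not_le.1 hj)]; simp⟩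
  obtain ⟨q, hq, -, hm⟩ := Polynomial.lifts_and_degree_eq_and_monic hl hp
  exact ⟨q, hm.ne_zero, by rw [Polynomial.aeval_def, ← Polynomial.eval_map, hq, hr]⟩

end Pool.Agent.MP_57f271_lc.H18
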