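import Mathlib

namespace Pool.Agent.MP_57f271_lc.H18

/-- The four field operations. -/
inductive Op : Type
  | add | sub | mul | div

/-- The value of a field operation (`x / 0 = 0`). -/
noncomputable def Op.eval : Op → ℂ → ℂ → ℂ
  | .add, a, b => a + b
  | .sub, a, b => a - b
  | .mul, a, b => a * b
  | .div, a, b => a / b

/-- The label of a node of a machine whose nodes are named by `Q`. -/
inductive Instr (Q : Type) : Type
  | arith (o : Op) (i j k : ℤ) (next : Q)
  | scale (c : ℂ) (i k : ℤ) (next : Q)
  | const (c : ℂ) (k : ℤ) (next : Q)
  | shift (left : Bool) (next : Q)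
  | branch (i : ℤ) (yes no : Q)
  | output (answer : Bool)

/-- A machine over `ℂ`: finitely many nodes, a first node, and a label for each node. -/
structure Machine : Type where
  m : ℕ
  start : Fin m
  instr : Fin m → Instr (Fin m)

open Classical in
/-- One step on a pair (node, bi-infinite state). -/
noncomputable def Machine.step (M : Machine) (c : Fin M.m × (ℤ → ℂ)) : Fin M.m × (ℤ → ℂ) :=
  match M.instr c.1 with
  | .arith o i j k next => (next, Function.update c.2 k (o.eval (c.2 i) (c.2 j)))
  | .scale a i k next => (next, Function.update c.2 k (a * c.2 i))
  | .const a k next => (next, Function.update c.2 k a)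
  | .shift left next => (next, fun i => c.2 (if left then i + 1 else i - 1))
  | .branch i yes no => (if c.2 i = 0 then yes else no, c.2)
  | .output _ => c

/-- Started on the state `x`, the machine is at an output node with answer `b` after `t` steps. -/
def Machine.Outputs (M : Machine) (x : ℤ → ℂ) (t : ℕ) (b : Bool) : Prop :=
  M.instr (M.step^[t] (M.start, x)).1 = .output b

/-- A system of `k` polynomials in `n` variables. -/
structure System : Type where
  n : ℕ
  k : ℕ
  f : Fin k → MvPolynomial (Fin n) ℂ

/-- The coefficient places: a polynomial `i` and a monomial of degree at most `d i`. -/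
def Slot (n k : ℕ) (d : Fin k → ℕ) : Type := Σ i : Fin k, {e : Fin n →₀ ℕ // e.degree ≤ d i}

/-- The degrees of a system. -/
noncomputable def System.deg (S : System) : Fin S.k → ℕ := fun i => (S.f i).totalDegree

/-- The size of a system: the number of its coefficients. -/
noncomputable def System.size (S : System) : ℕ := Nat.card (Slot S.n S.k S.deg)

/-- The system has a common zero. -/
def System.Feasible (S : System) : Prop :=
  ∃ z : Fin S.n → ℂ, ∀ i, MvPolynomial.eval z (S.f i) = 0

/-- An input convention: for each format `(n, k, degrees)` distinct entries for the coefficients,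
and natural numbers (the values `n`, `k`, the degrees, markers, zeros) in all other entries. -/
structure Encoding : Type where
  pos : (n k : ℕ) → (d : Fin k → ℕ) → Slot n k d → ℤ
  inj : ∀ n k d, Function.Injective (pos n k d)
  rest : (n k : ℕ) → (d : Fin k → ℕ) → ℤ → ℕ

/-- The initial state for a system. -/
noncomputable def Encoding.state (E : Encoding) (S : System) : ℤ → ℂ :=
  Function.extend (E.pos S.n S.k S.deg) (fun s => MvPolynomial.coeff s.2.1 (S.f s.1))
    fun j => (E.rest S.n S.k S.deg j : ℂ)

/-- The machine halts on every system with the right answer. -/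
def Machine.DecidesHN (M : Machine) (E : Encoding) : Prop :=
  ∀ S : System, ∃ t b, M.Outputs (E.state S) t b ∧ (b = true ↔ S.Feasible)

end Pool.Agent.MP_57f271_lc.H18
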