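import Pool.Agent.MP_57f271_lc.H18.Splice
import Pool.Agent.MP_57f271_lc.H18.Alg

namespace Pool.Agent.MP_57f271_lc.H18

open Function Polynomial

theorem fin1_eq (e : Fin 1 →₀ ℕ) : e = Finsupp.single 0 (e 0) := by
  ext
  simp

theorem coeff_toMv (p : ℂ[X]) (e : Fin 1 →₀ ℕ) :
    MvPolynomial.coeff e (p.toMvPolynomial (0 : Fin 1)) = p.coeff (e 0) := by
  induction p using Polynomial.induction_on' with
  | add p q hp hq => simp [hp, hq]
  | monomial n a =>
    rw [← C_mul_X_pow_eq_monomial, map_mul, map_pow, toMvPolynomial_C, toMvPolynomial_X,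
      MvPolynomial.coeff_C_mul, MvPolynomial.coeff_X_pow, coeff_C_mul, coeff_X_pow]
    congr 1
    refine if_congr ⟨fun h => by rw [← h]; simp, fun h => ?_⟩ rfl rfl
    rw [fin1_eq e, h]

theorem degree_fin1 (e : Fin 1 →₀ ℕ) : e.degree = e 0 := by
  rw [Finsupp.degree_eq_sum]; simp

theorem totalDegree_toMv {p : ℂ[X]} (hp : p ≠ 0) :
    (p.toMvPolynomial (0 : Fin 1)).totalDegree = p.natDegree := by
  have hs : ∀ e : Fin 1 →₀ ℕ, (e.sum fun _ n => n) = e 0 := fun e => by
    rw [Finsupp.sum_fintype _ _ (by simp)]; simp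
  apply le_antisymm
  · refine Finset.sup_le fun e he => ?_
    rw [MvPolynomial.mem_support_iff, coeff_toMv] at he
    rw [hs]
    exact le_natDegree_of_ne_zero he
  · have : Finsupp.single (0 : Fin 1) p.natDegree ∈ (p.toMvPolynomial (0 : Fin 1)).support := by
      rw [MvPolynomial.mem_support_iff, coeff_toMv]
      simpa using hp
    have h := MvPolynomial.le_totalDegree this
    rw [hs] at h
    simpa using h

/-- two polynomials in one variable -/
noncomputable def sys (p : Fin 2 → ℂ[X]) : System := ⟨1, 2, fun a => (p a).toMvPolynomial 0⟩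

abbrev Sl (d : ℕ) : Type := Slot 1 2 fun _ => d

noncomputable def slEquiv (d : ℕ) : Sl d ≃ Fin 2 × Fin (d + 1) where
  toFun s := (s.1, ⟨s.2.1 0, by
    have : (s.2.1).degree ≤ d := s.2.2
    rw [degree_fin1] at this
    omega⟩)
  invFun x := ⟨x.1, ⟨Finsupp.single 0 x.2, by rw [degree_fin1]; simpa using Nat.le_of_lt_succ x.2.2⟩⟩
  left_inv s := by
    obtain ⟨a, e, he⟩ := s
    simp only
    congr 2
    exact (fin1_eq e).symm
  right_inv x := by simp

noncomputable instance (d : ℕ) : Fintype (Sl d) := Fintype.ofEquiv _ (slEquiv d).symm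

theorem card_sl (d : ℕ) : Fintype.card (Sl d) = 2 * (d + 1) := by
  rw [Fintype.card_congr (slEquiv d)]; simp

def cf {d : ℕ} (p : Fin 2 → ℂ[X]) (s : Sl d) : ℂ := (p s.1).coeff (s.2.1 0)

theorem sys_deg {p : Fin 2 → ℂ[X]} {d : ℕ} (hm : ∀ a, (p a).Monic) (hd : ∀ a, (p a).natDegree = d) :
    (sys p).deg = fun _ => d :=
  funext fun a => (totalDegree_toMv (hm a).ne_zero).trans (hd a)

theorem sys_size {p : Fin 2 → ℂ[X]} {d : ℕ} (hm : ∀ a, (p a).Monic)
    (hd : ∀ a, (p a).natDegree = d) : (sys p).size = 2 * (d + 1) := by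
  rw [System.size, sys_deg hm hd, ← card_sl]
  exact Nat.card_eq_fintype_card (α := Sl d)

theorem sys_state (E : Encoding) {p : Fin 2 → ℂ[X]} {d : ℕ} (hm : ∀ a, (p a).Monic)
    (hd : ∀ a, (p a).natDegree = d) :
    E.state (sys p) = extend (E.pos 1 2 fun _ => d) (cf p) fun j => (E.rest 1 2 (fun _ => d) j : ℂ) := by
  have key : ∀ dd : Fin 2 → ℕ, (sys p).deg = dd → E.state (sys p) =
      extend (E.pos 1 2 dd) (fun s => (p s.1).coeff (s.2.1 0)) fun j => (E.rest 1 2 dd j : ℂ) := by
    rintro dd rfl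
    unfold Encoding.state
    congr 1
    funext s
    exact coeff_toMv _ _
  exact key _ (sys_deg hm hd)

theorem sys_feasible (p : Fin 2 → ℂ[X]) : (sys p).Feasible ↔ ∃ z, ∀ a, (p a).eval z = 0 := by
  constructor
  · rintro ⟨z, hz⟩
    exact ⟨z (0 : Fin 1), fun a => (MvPolynomial.eval_toMvPolynomial z (0 : Fin 1) (p a)).symm.trans (hz a)⟩
  · rintro ⟨z, hz⟩
    exact ⟨fun _ => z, fun a => (MvPolynomial.eval_toMvPolynomial _ (0 : Fin 1) (p a)).trans (hz a)⟩

section Generic

variable {d : ℕ} (v : Fin 2 × Fin d → ℂ)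

/-- the polynomial with the given roots -/
noncomputable def gp (a : Fin 2) : ℂ[X] := ∏ i, (X - C (v (a, i)))

theorem gp_monic (a : Fin 2) : (gp v a).Monic := monic_prod_of_monic _ _ fun _ _ => monic_X_sub_C _

theorem gp_deg (a : Fin 2) : (gp v a).natDegree = d := by
  rw [gp, natDegree_prod_of_monic _ _ fun _ _ => monic_X_sub_C _]
  simp

theorem gp_root (a : Fin 2) (z : ℂ) : (gp v a).eval z = 0 ↔ ∃ i, z = v (a, i) := by
  simp [gp, eval_prod, Finset.prod_eq_zero_iff, sub_eq_zero]

variable {v}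

theorem gp_infeasible (hv : AlgebraicIndependent ℚ v) : ¬ (sys (gp v)).Feasible := by
  rw [sys_feasible]
  rintro ⟨z, hz⟩
  obtain ⟨i, hi⟩ := (gp_root v 0 z).1 (hz 0)
  obtain ⟨j, hj⟩ := (gp_root v 1 z).1 (hz 1)
  have := hv.injective (hi.symm.trans hj)
  simp at this

open Classical in
theorem exists_root (hv : AlgebraicIndependent ℚ v) (Sc : Finset ℂ) (A : Finset (Sl d)) (a : Fin 2)
    (hA : ∀ s ∈ A, s.1 = a) (K : Set ℂ) (hK : K ⊆ ↑(Sc ∪ (Finset.univ \ A).image (cf (gp v))))
    (hc : Sc.card + 2 < A.card) : ∃ i, v (a, i) ∉ cl K := by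
  by_contra hno
  push Not at hno
  have h := card_le_of_subset_cl hv (Sc ∪ (Finset.univ \ A).image (cf (gp v))) (by
    rintro ⟨a', i⟩
    by_cases ha : a' = a
    · subst ha
      exact cl_mono hK (hno i)
    · refine root_mem_cl (gp_monic v a') (fun j hj => ?_) ((gp_root v a' _).2 ⟨i, rfl⟩)
      rw [gp_deg] at hj
      refine Finset.mem_coe.2 (Finset.mem_union_right _ (Finset.mem_image.2
        ⟨(slEquiv d).symm (a', ⟨j, by omega⟩), ?_, ?_⟩))
      · exact Finset.mem_sdiff.2 ⟨Finset.mem_univ _, fun h => ha (hA _ h)⟩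
      · simp [cf, slEquiv])
  have h1 := Finset.card_union_le Sc ((Finset.univ \ A).image (cf (gp v)))
  have h2 : ((Finset.univ \ A).image (cf (gp v))).card ≤ (Finset.univ \ A).card :=
    Finset.card_image_le
  have h3 := Finset.card_sdiff_add_card_eq_card (Finset.subset_univ A)
  rw [Finset.card_univ, card_sl] at h3
  simp only [Fintype.card_prod, Fintype.card_fin] at h
  omega

open Classical in
theorem boundary (hv : AlgebraicIndependent ℚ v) (M : Machine) (E : Encoding) (hM : M.DecidesHN E)
    {T : ℕ} (hT : M.Outputs (E.state (sys (gp v))) T false) (b : ℤ) {a a' : Fin 2} (haa : a ≠ a')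
    (hA : (M.script (E.state (sys (gp v))) T b).card + 2 <
      (Finset.univ.filter fun s : Sl d => s.1 = a ∧ E.pos 1 2 _ s < b).card)
    (hB : (M.script (E.state (sys (gp v))) T b).card + 2 <
      (Finset.univ.filter fun s : Sl d => s.1 = a' ∧ ¬ E.pos 1 2 _ s < b).card) : False := by
  set Sc := M.script (E.state (sys (gp v))) T b
  set A := Finset.univ.filter fun s : Sl d => s.1 = a ∧ E.pos 1 2 _ s < b with hAdef
  set B := Finset.univ.filter fun s : Sl d => s.1 = a' ∧ ¬ E.pos 1 2 _ s < b with hBdef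
  let K : Set ℂ := ↑(Sc ∪ (Finset.univ \ (A ∪ B)).image (cf (gp v)))
  obtain ⟨i, hi⟩ := exists_root hv Sc A a (fun s hs => (Finset.mem_filter.1 hs).2.1) K
    (Finset.coe_subset.2 (Finset.union_subset_union_right (Finset.image_subset_image
      (Finset.sdiff_subset_sdiff le_rfl Finset.subset_union_left)))) hA
  obtain ⟨j, hj⟩ := exists_root hv Sc B a' (fun s hs => (Finset.mem_filter.1 hs).2.1) K
    (Finset.coe_subset.2 (Finset.union_subset_union_right (Finset.image_subset_image
      (Finset.sdiff_subset_sdiff le_rfl Finset.subset_union_right)))) hB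
  obtain ⟨σ, hσ, hαβ⟩ := exists_hom K hi hj
  let p' : Fin 2 → ℂ[X] := fun c => if c = a then (gp v c).map σ else gp v c
  have hm : ∀ c, (p' c).Monic := fun c => by
    simp only [p']
    split_ifs
    · exact (gp_monic v c).map σ
    · exact gp_monic v c
  have hd : ∀ c, (p' c).natDegree = d := fun c => by
    simp only [p']
    split_ifs
    · rw [natDegree_map, gp_deg]
    · exact gp_deg v c
  have hfe : (sys p').Feasible := by
    rw [sys_feasible]
    refine ⟨v (a', j), fun c => ?_⟩
    simp only [p']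
    split_ifs with h
    · rw [← hαβ, eval_map, eval₂_at_apply, h, (gp_root v a _).2 ⟨i, rfl⟩, map_zero]
    · have : c = a' := by omega
      rw [this]
      exact (gp_root v a' _).2 ⟨j, rfl⟩
  have hst : E.state (sys p') = splice σ b (E.state (sys (gp v))) := by
    rw [sys_state E hm hd, sys_state E (gp_monic v) (gp_deg v)]
    funext k
    by_cases hk : ∃ s, E.pos 1 2 (fun _ => d) s = k
    · obtain ⟨s, rfl⟩ := hk
      have hfix : s ∉ A → s ∉ B → σ (cf (gp v) s) = cf (gp v) s := fun h1 h2 =>
        hσ _ (Finset.mem_coe.2 (Finset.mem_union_right _ (Finset.mem_image_of_mem _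
          (Finset.mem_sdiff.2 ⟨Finset.mem_univ _, fun h => (Finset.mem_union.1 h).elim h1 h2⟩))))
      simp only [splice, (E.inj _ _ _).extend_apply]
      have e1 : cf p' s = if s.1 = a then σ (cf (gp v) s) else cf (gp v) s := by
        simp only [cf, p']
        split_ifs
        · exact coeff_map _ _
        · rfl
      rw [e1]
      by_cases h1 : s.1 = a <;> by_cases h2 : E.pos 1 2 (fun _ => d) s < b
      · simp only [h1, h2, if_true]
      · simp only [h1, h2, if_true, if_false]
        exact hfix (by simp [hAdef, h2]) (by simp [hBdef, h1, haa])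
      · simp only [h1, h2, if_true, if_false]
        exact (hfix (by simp [hAdef, h1]) (by simp [hBdef, h2])).symm
      · simp only [h1, h2, if_false]
    · simp only [splice, extend_apply' _ _ _ hk, map_natCast, ite_self]
  have ho := M.outputs_splice σ _ T b
    (fun s hs => hσ s (Finset.mem_coe.2 (Finset.mem_union_left _ hs))) hT
  rw [← hst] at ho
  obtain ⟨t, c, h1, h2⟩ := hM (sys p')
  have := M.outputs_unique h1 ho
  rw [h2.2 hfe] at this
  cases this

end Generic

open Classical in
theorem many_boundaries {ι : Type} [Fintype ι] {pos : ι → ℤ} (hp : Injective pos) {e : ℕ}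
    (hc : Fintype.card ι = 8 * e) : ∃ B : Finset ℤ, 4 * e ≤ B.card ∧ ∀ b ∈ B,
      2 * e ≤ (Finset.univ.filter fun s => pos s < b).card ∧
      (Finset.univ.filter fun s => pos s < b).card ≤ 6 * e := by
  let r : ι → ℕ := fun s => (Finset.univ.filter fun s' => pos s' < pos s).card
  have hlt : ∀ s s', pos s < pos s' → r s < r s' := fun s s' h =>
    Finset.card_lt_card ⟨fun x hx => by
      simp only [Finset.mem_filter, Finset.mem_univ, true_and] at hx ⊢; omega,
      fun hh => by simpa using hh (Finset.mem_filter.2 ⟨Finset.mem_univ s, h⟩)⟩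
  have hinj : Injective r := fun s s' h => hp (by
    rcases lt_trichotomy (pos s) (pos s') with h1 | h1 | h1
    · exact absurd h (hlt _ _ h1).ne
    · exact h1
    · exact absurd h (hlt _ _ h1).ne')
  have hb : ∀ s, r s ≤ 8 * e := fun s => hc ▸ Finset.card_le_univ _
  let G := Finset.univ.filter fun s => 2 * e ≤ r s ∧ r s ≤ 6 * e
  have hG : (Finset.univ \ G).card ≤ (Finset.range (2 * e) ∪ Finset.Ioc (6 * e) (8 * e)).card :=
    Finset.card_le_card_of_injOn r (fun s hs => by
      have := hb s
      simp only [G, Finset.coe_sdiff, Finset.coe_univ, Finset.coe_filter, Finset.mem_univ,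
        true_and, Set.mem_sdiff, Set.mem_univ, Set.mem_ofPred_eq] at hs
      simp only [Finset.coe_union, Finset.coe_range, Finset.coe_Ioc, Set.mem_union, Set.mem_Iio,
        Set.mem_Ioc]
      omega) hinj.injOn
  have h1 := Finset.card_union_le (Finset.range (2 * e)) (Finset.Ioc (6 * e) (8 * e))
  have h2 := Finset.card_sdiff_add_card_eq_card (Finset.subset_univ G)
  rw [Finset.card_range, Nat.card_Ioc] at h1
  rw [Finset.card_univ, hc] at h2
  refine ⟨G.image pos, by rw [Finset.card_image_of_injective _ hp]; omega, fun b hb => ?_⟩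
  obtain ⟨s, hs, rfl⟩ := Finset.mem_image.1 hb
  exact (Finset.mem_filter.1 hs).2

open Classical in
theorem card_fst (d : ℕ) (a : Fin 2) :
    (Finset.univ.filter fun s : Sl d => s.1 = a).card = d + 1 := by
  have : (Finset.univ.filter fun s : Sl d => s.1 = a) =
      Finset.univ.image fun j : Fin (d + 1) => (slEquiv d).symm (a, j) := by
    ext s
    simp only [Finset.mem_filter, Finset.mem_univ, true_and, Finset.mem_image]
    constructor
    · rintro rfl
      exact ⟨(slEquiv d s).2, (slEquiv d).symm_apply_apply s⟩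
    · rintro ⟨j, rfl⟩
      rfl
  rw [this, Finset.card_image_of_injective]
  · simp
  · intro j j' h
    simpa using h

theorem main (M : Machine) (E : Encoding) (hM : M.DecidesHN E) :
    ∃ K : ℕ, ∀ N : ℕ, ∃ S : System, N ≤ S.size ∧
      ∀ t b, M.Outputs (E.state S) t b → S.size ^ 2 ≤ K * t := by
  classical
  refine ⟨128 * M.wid, fun N => ?_⟩
  obtain ⟨e, he⟩ : ∃ e, e = N + 2 * (M.m + 3) := ⟨_, rfl⟩
  obtain ⟨d, hd⟩ : ∃ d, d + 1 = 4 * e := ⟨4 * e - 1, by omega⟩
  obtain ⟨v0, hv0⟩ := exists_indep (2 * d)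
  have hv := hv0.comp _ (finProdFinEquiv (m := 2) (n := d)).injective
  set v := v0 ∘ finProdFinEquiv
  have hsz := sys_size (gp_monic v) (gp_deg v)
  refine ⟨sys (gp v), by omega, fun T c hT => ?_⟩
  have hc : c = false := by
    obtain ⟨t, c', h1, h2⟩ := hM (sys (gp v))
    rw [M.outputs_unique hT h1]
    cases c'
    · rfl
    · exact absurd (h2.1 rfl) (gp_infeasible hv)
  subst hc
  obtain ⟨B, hB, hBb⟩ := many_boundaries (ι := Sl d) (E.inj 1 2 _) (e := e)
    (by rw [card_sl]; omega)
  have key : ∀ b ∈ B, e ≤ M.m + 2 + 2 * (M.cross (E.state (sys (gp v))) T b).card := by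
    intro b hb
    by_contra hlt
    have hs := M.card_script (E.state (sys (gp v))) T b
    obtain ⟨h1, h2⟩ := hBb b hb
    have hsplit : ∀ a : Fin 2,
        (Finset.univ.filter fun s : Sl d => s.1 = a ∧ E.pos 1 2 _ s < b).card +
        (Finset.univ.filter fun s : Sl d => s.1 = a ∧ ¬ E.pos 1 2 _ s < b).card = d + 1 := by
      intro a
      rw [← card_fst d a, ← Finset.filter_filter, ← Finset.filter_filter]
      exact Finset.card_filter_add_card_filter_not _
    have hL : (Finset.univ.filter fun s : Sl d => s.1 = 0 ∧ E.pos 1 2 _ s < b).card +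
        (Finset.univ.filter fun s : Sl d => s.1 = 1 ∧ E.pos 1 2 _ s < b).card =
        (Finset.univ.filter fun s : Sl d => E.pos 1 2 _ s < b).card := by
      rw [← Finset.card_filter_add_card_filter_not (s := Finset.univ.filter fun s : Sl d =>
        E.pos 1 2 _ s < b) (fun s => s.1 = 0), Finset.filter_filter, Finset.filter_filter]
      congr 2
      · ext s; simp [and_comm]
      · ext s
        have : s.1 = 1 ↔ ¬ s.1 = 0 := by omega
        simp [and_comm, this]
    have s0 := hsplit 0
    have s1 := hsplit 1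
    have b01 := boundary hv M E hM hT b (a := 0) (a' := 1) (by decide)
    have b10 := boundary hv M E hM hT b (a := 1) (a' := 0) (by decide)
    by_cases c1 : e ≤ (Finset.univ.filter fun s : Sl d => s.1 = 0 ∧ E.pos 1 2 _ s < b).card
    · by_cases c2 : e ≤ (Finset.univ.filter fun s : Sl d => s.1 = 1 ∧ ¬ E.pos 1 2 _ s < b).card
      · exact b01 (by omega) (by omega)
      · exact b10 (by omega) (by omega)
    · exact b10 (by omega) (by omega)
  have hsum := Finset.sum_le_sum key
  rw [Finset.sum_add_distrib, ← Finset.mul_sum, Finset.sum_const, Finset.sum_const, smul_eq_mul,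
    smul_eq_mul] at hsum
  have hcr := M.sum_cross (E.state (sys (gp v))) T B
  have h1 : B.card * e ≤ 2 * (2 * (T * (2 * M.wid))) := by
    have : B.card * (2 * (M.m + 2)) ≤ B.card * e := Nat.mul_le_mul_left _ (by omega)
    nlinarith
  have h2 : 4 * e * e ≤ B.card * e := Nat.mul_le_mul_right _ hB
  rw [hsz, hd]
  nlinarith

end Pool.Agent.MP_57f271_lc.H18
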