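import Pool.Agent.MP_57f271_lc.H18.Defs

namespace Pool.Agent.MP_57f271_lc.H18

open Function

variable {Q : Type}

def Instr.move : Instr Q → ℤ
  | .shift left _ => if left then 1 else -1
  | _ => 0

def Instr.r1 : Instr Q → ℤ
  | .arith _ i _ _ _ => i
  | .scale _ i _ _ => i
  | _ => 0

def Instr.r2 : Instr Q → ℤ
  | .arith _ _ j _ _ => j
  | _ => 0

noncomputable def Instr.cst : Instr Q → ℂ
  | .scale c _ _ _ => c
  | .const c _ _ => c
  | _ => 0

def Instr.width : Instr Q → ℕ
  | .arith _ i j k _ => i.natAbs + j.natAbs + k.natAbs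
  | .scale _ i k _ => i.natAbs + k.natAbs
  | _ => 0

/-- apply `σ` to the entries left of `β` -/
noncomputable def splice (σ : ℂ →+* ℂ) (β : ℤ) (x : ℤ → ℂ) : ℤ → ℂ :=
  fun i => if i < β then σ (x i) else x i

theorem Op.map_eval (σ : ℂ →+* ℂ) (o : Op) (a b : ℂ) : σ (o.eval a b) = o.eval (σ a) (σ b) := by
  cases o <;> simp [Op.eval]

theorem splice_update (σ : ℂ →+* ℂ) (β : ℤ) (x : ℤ → ℂ) (k : ℤ) (v : ℂ) :
    splice σ β (update x k v) = update (splice σ β x) k (if k < β then σ v else v) := by
  funext i
  by_cases h : i = k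
  · subst h; simp [splice]
  · simp [splice, update_of_ne h]

theorem splice_step (M : Machine) (σ : ℂ →+* ℂ) (w : ℕ) (β : ℤ) (q : Fin M.m) (x : ℤ → ℂ)
    (hw : (M.instr q).width ≤ w) (hc : σ (M.instr q).cst = (M.instr q).cst)
    (hx : -(w : ℤ) < β → β ≤ w →
      σ (x (M.instr q).r1) = x (M.instr q).r1 ∧ σ (x (M.instr q).r2) = x (M.instr q).r2) :
    M.step (q, splice σ β x) =
      ((M.step (q, x)).1, splice σ (β - (M.instr q).move) (M.step (q, x)).2) := by
  unfold Machine.step
  cases h : M.instr q with
  | arith o i j k next =>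
    simp only [h, Instr.width, Instr.r1, Instr.r2, Instr.move, sub_zero] at hw hx ⊢
    rw [splice_update]
    congr 2
    by_cases h1 : -(w : ℤ) < β
    · by_cases h2 : β ≤ w
      · obtain ⟨e1, e2⟩ := hx h1 h2
        simp only [splice, Op.map_eval, e1, e2, ite_self]
      · have : i < β ∧ j < β ∧ k < β := by omega
        simp only [splice, this.1, this.2.1, this.2.2, if_true, Op.map_eval]
    · have : ¬ i < β ∧ ¬ j < β ∧ ¬ k < β := by omega
      simp only [splice, this.1, this.2.1, this.2.2, if_false]
  | scale a i k next =>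
    simp only [h, Instr.width, Instr.r1, Instr.r2, Instr.move, Instr.cst, sub_zero] at hw hx hc ⊢
    rw [splice_update]
    congr 2
    by_cases h1 : -(w : ℤ) < β
    · by_cases h2 : β ≤ w
      · obtain ⟨e1, -⟩ := hx h1 h2
        simp only [splice, map_mul, e1, hc, ite_self]
      · have : i < β ∧ k < β := by omega
        simp only [splice, this.1, this.2, if_true, map_mul, hc]
    · have : ¬ i < β ∧ ¬ k < β := by omega
      simp only [splice, this.1, this.2, if_false]
  | const a k next =>
    simp only [h, Instr.move, Instr.cst, sub_zero] at hc ⊢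
    rw [splice_update, hc, ite_self]
  | shift left next =>
    simp only [Instr.move]
    congr 1
    funext i
    cases left
    · have : (i - 1 < β) ↔ (i < β - -1) := by omega
      simp only [splice, Bool.false_eq_true, if_false, this]
    · have : (i + 1 < β) ↔ (i < β - 1) := by omega
      simp only [splice, if_true, this]
  | branch i yes no =>
    simp only [Instr.move, sub_zero]
    congr 1
    have : splice σ β x i = 0 ↔ x i = 0 := by
      simp only [splice]
      split_ifs
      · exact map_eq_zero σ
      · rfl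
    simp only [this]
  | output b => simp only [Instr.move, sub_zero]

/-- the configuration after `t` steps -/
noncomputable def Machine.run (M : Machine) (x : ℤ → ℂ) (t : ℕ) : Fin M.m × (ℤ → ℂ) :=
  M.step^[t] (M.start, x)

theorem Machine.run_succ (M : Machine) (x : ℤ → ℂ) (t : ℕ) :
    M.run x (t + 1) = M.step (M.run x t) := iterate_succ_apply' _ _ _

/-- total shift after `t` steps -/
noncomputable def Machine.off (M : Machine) (x : ℤ → ℂ) : ℕ → ℤ
  | 0 => 0
  | t + 1 => M.off x t + (M.instr (M.run x t).1).move

/-- a bound for the places a node touches -/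
def Machine.wid (M : Machine) : ℕ := Finset.univ.sup fun q => (M.instr q).width

/-- the steps before `T` whose window meets the boundary `b` -/
noncomputable def Machine.cross (M : Machine) (x : ℤ → ℂ) (T : ℕ) (b : ℤ) : Finset ℕ :=
  (Finset.range T).filter fun t => -(M.wid : ℤ) < b - M.off x t ∧ b - M.off x t ≤ M.wid

open Classical in
/-- constants and the values read while the window meets the boundary -/
noncomputable def Machine.script (M : Machine) (x : ℤ → ℂ) (T : ℕ) (b : ℤ) : Finset ℂ :=
  Finset.univ.image (fun q => (M.instr q).cst) ∪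
    ((M.cross x T b).image (fun t => (M.run x t).2 (M.instr (M.run x t).1).r1) ∪
     (M.cross x T b).image (fun t => (M.run x t).2 (M.instr (M.run x t).1).r2))

theorem Machine.card_script (M : Machine) (x : ℤ → ℂ) (T : ℕ) (b : ℤ) :
    (M.script x T b).card ≤ M.m + 2 * (M.cross x T b).card := by
  classical
  unfold Machine.script
  refine (Finset.card_union_le _ _).trans (Nat.add_le_add ?_ ?_)
  · exact Finset.card_image_le.trans (by simp)
  · refine (Finset.card_union_le _ _).trans ?_
    rw [two_mul]
    exact Nat.add_le_add Finset.card_image_le Finset.card_image_le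

theorem Machine.run_splice (M : Machine) (σ : ℂ →+* ℂ) (x : ℤ → ℂ) (T : ℕ) (b : ℤ)
    (h : ∀ s ∈ M.script x T b, σ s = s) :
    ∀ t ≤ T, M.run (splice σ b x) t = ((M.run x t).1, splice σ (b - M.off x t) (M.run x t).2) := by
  classical
  intro t
  induction t with
  | zero => intro _; simp [Machine.run, Machine.off]
  | succ t ih =>
    intro ht
    rw [M.run_succ, ih (by omega), M.run_succ, splice_step M σ M.wid]
    · simp only [Machine.off, sub_sub]
    · exact Finset.le_sup (f := fun q => (M.instr q).width) (Finset.mem_univ _)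
    · exact h _ (Finset.mem_union_left _ (Finset.mem_image_of_mem _ (Finset.mem_univ _)))
    · intro h1 h2
      have hm : t ∈ M.cross x T b := Finset.mem_filter.2 ⟨Finset.mem_range.2 (by omega), h1, h2⟩
      exact ⟨h _ (Finset.mem_union_right _ (Finset.mem_union_left _ (Finset.mem_image_of_mem _ hm))),
        h _ (Finset.mem_union_right _ (Finset.mem_union_right _ (Finset.mem_image_of_mem _ hm)))⟩

theorem Machine.outputs_splice (M : Machine) (σ : ℂ →+* ℂ) (x : ℤ → ℂ) (T : ℕ) (b : ℤ)
    (h : ∀ s ∈ M.script x T b, σ s = s) {a : Bool} (ho : M.Outputs x T a) :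
    M.Outputs (splice σ b x) T a := by
  have := M.run_splice σ x T b h T le_rfl
  unfold Machine.Outputs at ho ⊢
  change M.instr (M.run (splice σ b x) T).1 = _
  rw [this]
  exact ho

theorem Machine.sum_cross (M : Machine) (x : ℤ → ℂ) (T : ℕ) (B : Finset ℤ) :
    ∑ b ∈ B, (M.cross x T b).card ≤ T * (2 * M.wid) := by
  classical
  simp only [Machine.cross, Finset.card_filter]
  rw [Finset.sum_comm]
  refine (Finset.sum_le_card_nsmul _ _ (2 * M.wid) fun t _ => ?_).trans (by simp)
  rw [← Finset.card_filter]
  refine (Finset.card_le_card (t := Finset.Ioc (M.off x t - M.wid) (M.off x t + M.wid))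
    fun b hb => ?_).trans ?_
  · have := (Finset.mem_filter.1 hb).2
    exact Finset.mem_Ioc.2 ⟨by omega, by omega⟩
  · rw [Int.card_Ioc]; omega

theorem Machine.outputs_stable (M : Machine) {x : ℤ → ℂ} {t : ℕ} {a : Bool}
    (h : M.Outputs x t a) (s : ℕ) : M.run x (t + s) = M.run x t := by
  induction s with
  | zero => rfl
  | succ s ih =>
    rw [← add_assoc, M.run_succ, ih]
    have h' : M.instr (M.run x t).1 = .output a := h
    unfold Machine.step
    simp only [h']

theorem Machine.outputs_unique (M : Machine) {x : ℤ → ℂ} {t t' : ℕ} {a a' : Bool}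
    (h : M.Outputs x t a) (h' : M.Outputs x t' a') : a = a' := by
  have e1 := M.outputs_stable h t'
  have e2 := M.outputs_stable h' t
  rw [add_comm, e1] at e2
  have h1 : M.instr (M.run x t).1 = .output a := h
  have h2 : M.instr (M.run x t').1 = .output a' := h'
  rw [e2, h2] at h1
  exact (Instr.output.inj h1).symm

end Pool.Agent.MP_57f271_lc.H18
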